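import Pool.Agent.K3h28.NR.Stm

/-!
# Simple vectors span the space
-/

set_option autoImplicit false

open Matrix
open scoped ComplexOrder

namespace Pool.Agent.K3h90.NR

open Pool.Agent.Helper774 Pool.Agent.K3h28.NR

theorem pen_herm {n : ℕ} (A : Matrix (Fin n) (Fin n) ℂ) (p : ℝ × ℂ) : (pen A p).IsHermitian := by
  unfold pen Matrix.IsHermitian
  rw [conjTranspose_add, conjTranspose_add, conjTranspose_conjTranspose, conjTranspose_smul,
    conjTranspose_one]
  simp only [RCLike.star_def, Complex.conj_ofReal]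
  rw [add_assoc, add_assoc, add_comm (p.2 • A)ᴴ]

theorem pen_shift {n : ℕ} (A : Matrix (Fin n) (Fin n) ℂ) (p : ℝ × ℂ) (μ : ℝ) :
    pen A (p.1 - μ, p.2) = pen A p - (μ : ℂ) • 1 := by
  unfold pen
  simp only
  push_cast
  rw [sub_smul]
  abel

theorem pen_compress {n m : ℕ} (A : Matrix (Fin n) (Fin n) ℂ) (V : Matrix (Fin n) (Fin m) ℂ)
    (hV : Vᴴ * V = 1) (p : ℝ × ℂ) : pen (Vᴴ * A * V) p = Vᴴ * pen A p * V := by
  unfold pen
  rw [Matrix.mul_add, Matrix.mul_add, Matrix.add_mul, Matrix.add_mul]
  congr 1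
  · congr 1
    · rw [Matrix.mul_smul, Matrix.smul_mul, Matrix.mul_one, hV]
    · rw [Matrix.mul_smul, Matrix.smul_mul]
  · rw [conjTranspose_smul, conjTranspose_smul, conjTranspose_mul, conjTranspose_mul,
      conjTranspose_conjTranspose, Matrix.mul_smul, Matrix.smul_mul, Matrix.mul_assoc]

/-- a Hermitian matrix which is not positive semidefinite -/
theorem exists_neg {n : ℕ} (M : Matrix (Fin n) (Fin n) ℂ) (hM : M.IsHermitian)
    (h : ¬ M.PosSemidef) : ∃ (μ : ℝ) (y : Fin n → ℂ), μ < 0 ∧ y ≠ 0 ∧ M *ᵥ y = (μ : ℂ) • y ∧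
      (M - (μ : ℂ) • 1).PosSemidef := by
  obtain ⟨W, d, hW1, hW2, hWM⟩ := exists_spectral M hM
  have hpsd : ∀ μ : ℝ, (∀ i, μ ≤ d i) → (M - (μ : ℂ) • 1).PosSemidef := by
    intro μ hμ
    have h1 : M - (μ : ℂ) • 1 = W * diagonal (fun i => ((d i - μ : ℝ) : ℂ)) * Wᴴ := by
      have h2 : diagonal (fun i => ((d i - μ : ℝ) : ℂ)) =
          diagonal (fun i => (d i : ℂ)) - (μ : ℂ) • (1 : Matrix (Fin n) (Fin n) ℂ) := by
        ext i j
        rw [Matrix.sub_apply, Matrix.smul_apply]
        by_cases hij : i = j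
        · subst hij
          simp
        · simp [diagonal_apply_ne _ hij, Matrix.one_apply_ne hij]
      rw [h2, Matrix.mul_sub, Matrix.sub_mul, ← hWM, Matrix.mul_smul, Matrix.smul_mul,
        Matrix.mul_one, hW2]
    rw [h1]
    refine (PosSemidef.diagonal ?_).mul_mul_conjTranspose_same W
    intro i
    have := sub_nonneg.2 (hμ i)
    simp only [Pi.zero_apply]
    exact_mod_cast this
  have hne : Nonempty (Fin n) := by
    by_contra hcon
    rw [not_nonempty_iff] at hcon
    apply h
    have := hpsd 0 (fun i => (hcon.false i).elim)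
    simpa using this
  obtain ⟨i0, hi0⟩ := Finite.exists_min d
  refine ⟨d i0, W *ᵥ Pi.single i0 1, ?_, ?_, ?_, hpsd _ hi0⟩
  · by_contra hcon
    push Not at hcon
    apply h
    have := hpsd 0 (fun i => hcon.trans (hi0 i))
    simpa using this
  · intro h0
    have h1 : Wᴴ *ᵥ (W *ᵥ Pi.single i0 1) = 0 := by rw [h0, mulVec_zero]
    rw [mulVec_mulVec, hW1, one_mulVec] at h1
    have h2 := congrFun h1 i0
    simp at h2
  · conv_lhs => rw [hWM]
    rw [mulVec_mulVec, Matrix.mul_assoc, Matrix.mul_assoc, hW1, Matrix.mul_one, ← mulVec_mulVec,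
      ← mulVec_smul]
    congr 1
    ext i
    rw [mulVec_diagonal]
    by_cases hi : i = i0
    · subst hi
      simp
    · simp [hi]

theorem t_SPAN (hI : S_MWI) : S_SPAN := by
  intro n A hA
  by_cases hW : Submodule.span ℂ {η : Fin (n + 1) → ℂ | Simple A η} = ⊤
  · obtain ⟨b, hb, hspan, hli⟩ := exists_linearIndependent ℂ {η : Fin (n + 1) → ℂ | Simple A η}
    rw [hW] at hspan
    let B : Module.Basis b ℂ (Fin (n + 1) → ℂ) := Module.Basis.mk hli (by
      rw [Subtype.range_coe, hspan])
    have : Fintype b := FiniteDimensional.fintypeBasisIndex B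
    have hc : Fintype.card b = n + 1 := by
      have := Module.finrank_eq_card_basis B
      rw [Module.finrank_fin_fun] at this
      exact this.symm
    let e := (Fintype.equivFinOfCardEq hc).symm
    exact ⟨fun i => (e i : Fin (n + 1) → ℂ), hli.comp e e.injective, fun i => hb (e i).2⟩
  · exfalso
    obtain ⟨f, hf0, hf⟩ := Submodule.exists_le_ker_of_lt_top _ (lt_top_iff_ne_top.2 hW)
    set g : Fin (n + 1) → ℂ := fun i => star (f (Pi.single i 1)) with hg
    have hgf : ∀ x, star g ⬝ᵥ x = f x := by
      intro x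
      have h1 : x = ∑ i, x i • (Pi.single i 1 : Fin (n + 1) → ℂ) := by
        rw [← Finset.univ_sum_single x]
        refine Finset.sum_congr rfl fun i _ => ?_
        rw [Finset.univ_sum_single]
        rw [← Pi.single_smul, smul_eq_mul, mul_one]
      conv_rhs => rw [h1]
      rw [map_sum]
      simp only [map_smul, dotProduct, Pi.star_apply, hg, star_star, smul_eq_mul]
      exact Finset.sum_congr rfl fun i _ => mul_comm _ _
    have hg0 : g ≠ 0 := by
      intro h0
      apply hf0
      ext i
      have := congrFun h0 i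
      simp only [hg, Pi.zero_apply, star_eq_zero] at this
      simpa using this
    obtain ⟨U, ρ, hρ, hU1, hU2, hUg⟩ := exists_unitary_col g hg0 n (by simp)
    set V : Matrix (Fin (n + 1)) (Fin n) ℂ := U.submatrix id some with hVdef
    have hV : Vᴴ * V = 1 := by
      ext i j
      have h1 := congrFun (congrFun hU1 (some i)) (some j)
      rw [Matrix.mul_apply] at h1 ⊢
      rw [Matrix.one_apply] at h1 ⊢
      simp only [Option.some.injEq] at h1
      exact h1
    have hnone : ∀ x, star g ⬝ᵥ x = 0 → (Uᴴ *ᵥ x) none = 0 := by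
      intro x hx
      have h1 : g = U *ᵥ (Pi.single none (ρ : ℂ)) := by
        rw [← hUg, mulVec_mulVec, hU2, one_mulVec]
      rw [h1, star_mulVec, ← dotProduct_mulVec] at hx
      have h2 : star (Pi.single none (ρ : ℂ) : Option (Fin n) → ℂ) ⬝ᵥ (Uᴴ *ᵥ x) =
          (ρ : ℂ) * (Uᴴ *ᵥ x) none := by
        rw [← Pi.single_star, single_dotProduct]
        simp
      rw [h2] at hx
      rcases mul_eq_zero.1 hx with h3 | h3
      · exact absurd h3 (by exact_mod_cast hρ.ne')
      · exact h3
    have hVx : ∀ x, star g ⬝ᵥ x = 0 → V *ᵥ (Vᴴ *ᵥ x) = x := by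
      intro x hx
      have h1 : U *ᵥ (Uᴴ *ᵥ x) = x := by rw [mulVec_mulVec, hU2, one_mulVec]
      conv_rhs => rw [← h1]
      ext i
      simp only [mulVec, dotProduct]
      rw [Fintype.sum_option]
      have h2 := hnone x hx
      simp only [mulVec, dotProduct] at h2
      rw [h2, mul_zero, zero_add]
      rfl
    have hn : 0 < n ∨ n = 0 := by omega
    have hsimple : ∀ y, Simple A y → star g ⬝ᵥ y = 0 := by
      intro y hy
      rw [hgf]
      exact hf (Submodule.subset_span hy)
    rcases hn with hn | hn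
    · apply hA V hV
      apply Set.Subset.antisymm (MW_compress_subset A V hV)
      apply hI n (n + 1) _ _ hn
      intro p hp
      by_contra hcon
      obtain ⟨μ, y, hμ, hy0, hMy, hpsd⟩ := exists_neg _ (pen_herm A p) hcon
      rw [← pen_shift] at hpsd
      have hker : ∀ x, pen A (p.1 - μ, p.2) *ᵥ x = 0 → pen A p *ᵥ x = (μ : ℂ) • x := by
        intro x hx
        rw [pen_shift, sub_mulVec, smul_mulVec, one_mulVec, sub_eq_zero] at hx
        exact hx
      have hyk : pen A (p.1 - μ, p.2) *ᵥ y = 0 := by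
        rw [pen_shift, sub_mulVec, smul_mulVec, one_mulVec, hMy, sub_self]
      have hperp : ∀ x, x ≠ 0 → pen A (p.1 - μ, p.2) *ᵥ x = 0 → star g ⬝ᵥ x ≠ 0 := by
        intro x hx0 hx hgx
        have h1 := hVx x hgx
        have h2 := hp.dotProduct_mulVec_nonneg (Vᴴ *ᵥ x)
        rw [pen_compress A V hV, ← mulVec_mulVec, h1, ← mulVec_mulVec, hker x hx,
          dotProduct_mulVec, vecMul_conjTranspose, star_star, h1, dotProduct_smul] at h2
        have h3 : 0 < star x ⬝ᵥ x := dotProduct_star_self_pos_iff.2 hx0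
        have h4 : (μ : ℂ) • (star x ⬝ᵥ x) < 0 := by
          rw [smul_eq_mul]
          exact mul_neg_of_neg_of_pos (by exact_mod_cast hμ) h3
        exact absurd h2 (not_le_of_gt h4)
      have hys : Simple A y := by
        refine ⟨hy0, (p.1 - μ, p.2), hpsd, hyk, fun ξ hξ => ?_⟩
        have hgy := hperp y hy0 hyk
        refine ⟨(star g ⬝ᵥ ξ) / (star g ⬝ᵥ y), ?_⟩
        by_contra hne
        have h1 : ξ - ((star g ⬝ᵥ ξ) / (star g ⬝ᵥ y)) • y ≠ 0 := sub_ne_zero.2 hne
        apply hperp _ h1
        · rw [mulVec_sub, mulVec_smul, hξ, hyk, smul_zero, sub_zero]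
        · rw [dotProduct_sub, dotProduct_smul, smul_eq_mul, div_mul_cancel₀ _ hgy, sub_self]
      exact hperp y hy0 hyk (hsimple y hys)
    · subst hn
      have h1 : Simple A (fun _ => 1) := by
        refine ⟨fun h => ?_, (0, 0), ?_, ?_, ?_⟩
        · have := congrFun h 0
          simp at this
        · have : pen A (0, 0) = 0 := by
            unfold pen
            simp
          rw [this]
          exact PosSemidef.zero
        · have : pen A (0, 0) = 0 := by
            unfold pen
            simp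
          rw [this, zero_mulVec]
        · intro ξ _
          refine ⟨ξ 0, ?_⟩
          ext i
          have : i = 0 := Subsingleton.elim (α := Fin 1) i 0
          subst this
          simp
      have h2 := hsimple _ h1
      apply hg0
      ext i
      have hi : i = 0 := Subsingleton.elim (α := Fin 1) i 0
      subst hi
      simpa [dotProduct] using h2

end Pool.Agent.K3h90.NR
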